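import Pool.Agent.H77.KG.Targets

/-!
# The annihilator of a minimal group is trivial (CLB, board kgr_modules, page H77_KGR.md)
-/

set_option autoImplicit false

open Set Pool.Agent.H77.BC Pool.Agent.H77.BD Pool.Agent.H77.KG

namespace Pool.Agent.H7.KGR

section

variable {G V : Type} [Group G] [AddCommGroup V] [DistribMulAction G V]

/-- the operator `g r g⁻¹` -/
private def cjr (g : G) : AddMonoid.End V →+* AddMonoid.End V where
  toFun r :=
    { toFun := fun v => g • r (g⁻¹ • v)
      map_zero' := by rw [smul_zero, map_zero, smul_zero]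
      map_add' := fun v w => by rw [smul_add, map_add, smul_add] }
  map_one' := AddMonoidHom.ext fun v => by
    change g • (g⁻¹ • v) = v
    exact smul_inv_smul g v
  map_mul' := fun r s => AddMonoidHom.ext fun v => by
    change g • r (s (g⁻¹ • v)) = g • r (g⁻¹ • (g • s (g⁻¹ • v)))
    rw [inv_smul_smul]
  map_zero' := AddMonoidHom.ext fun v => by
    change g • (0 : V) = 0
    exact smul_zero g
  map_add' := fun r s => AddMonoidHom.ext fun v => by
    change g • (r (g⁻¹ • v) + s (g⁻¹ • v)) = g • r (g⁻¹ • v) + g • s (g⁻¹ • v)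
    exact smul_add g _ _

private theorem cjr_apply (g : G) (r : AddMonoid.End V) (v : V) :
    cjr g r v = g • r (g⁻¹ • v) := rfl

private theorem cjr_mem {T : Subgroup G} (hT : T.Normal) (g : G) {r : AddMonoid.End V}
    (hr : r ∈ Eg (V := V) T) : cjr g r ∈ Eg (V := V) T := by
  have h1 : Eg (V := V) T ≤ (Eg (V := V) T).comap (cjr g) := by
    refine Subring.closure_le.2 ?_
    rintro f ⟨t, ht, hf⟩
    refine Subring.subset_closure ⟨g * t * g⁻¹, hT.conj_mem t ht g, fun v => ?_⟩
    rw [cjr_apply, hf, ← mul_smul, ← mul_smul, mul_assoc]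
  exact h1 hr

private theorem inv_W {T : Subgroup G} {W : AddSubgroup V} (hW : Iv T W) :
    ∀ r ∈ Eg (V := V) T, ∀ w ∈ W, r w ∈ W := by
  intro r hr
  induction hr using Subring.closure_induction with
  | mem f hf =>
    obtain ⟨t, ht, hf⟩ := hf
    intro w hw
    rw [hf]
    exact hW t ht w hw
  | zero => exact fun w _ => W.zero_mem
  | one => exact fun w hw => hw
  | add f g _ _ h1 h2 => exact fun w hw => W.add_mem (h1 w hw) (h2 w hw)
  | neg f _ h1 => exact fun w hw => W.neg_mem (h1 w hw)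
  | mul f g _ _ h1 h2 => exact fun w hw => h1 _ (h2 w hw)

private theorem smul_mem_Eg {T : Subgroup G} {t : G} (ht : t ∈ T) :
    ∃ f ∈ Eg (V := V) T, ∀ v, f v = t • v :=
  ⟨DistribSMul.toAddMonoidHom V t, Subring.subset_closure ⟨t, ht, fun _ => rfl⟩,
    fun _ => rfl⟩

private theorem sum_mem_Eg {T : Subgroup G} {k : ℕ} (t t' : Fin k → G)
    (h : ∀ i, t i ∈ T ∧ t' i ∈ T) :
    ∃ f ∈ Eg (V := V) T, ∀ v, f v = ∑ i, (t i • v - t' i • v) := by
  choose a ha ha' using fun i => smul_mem_Eg (V := V) (h i).1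
  choose b hb hb' using fun i => smul_mem_Eg (V := V) (h i).2
  refine ⟨∑ i, (a i - b i), Subring.sum_mem _ fun i _ => Subring.sub_mem _ (ha i) (hb i),
    fun v => ?_⟩
  have h1 : (∑ i, (a i - b i) : AddMonoid.End V) v = ∑ i, (a i - b i) v :=
    AddMonoidHom.finsetSum_apply _ _ _
  rw [h1]
  refine Finset.sum_congr rfl fun i _ => ?_
  change a i v - b i v = _
  rw [ha', hb']

end

/-- CLB: the annihilator of a minimal group is trivial -/
theorem pf_CLB (hZFT : T_ZFT) (hCTD : T_CTD) (hADT : T_ADT) (hCCE : T_CCE) : T_CLB := by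
  intro M U G V _ _ _ _ _ _ _ _ hG hMn T hTn hTc hTcom W hW hnt ⟨m, g, hg⟩
  obtain ⟨hZ1, hZ2⟩ := hZFT U T W hTc hTcom hW hnt
  have hWI := inv_W hW.2.1
  obtain ⟨t₀, ht₀, w₀, hw₀, htw₀⟩ := hnt
  have hw₀0 : w₀ ≠ 0 := by
    intro h
    rw [h, smul_zero] at htw₀
    exact htw₀ rfl
  -- operators are definable
  have hDFn : ∀ r ∈ Eg (V := V) T, DFn U (fun v => r v) := by
    intro r hr
    induction hr using Subring.closure_induction with
    | mem f hf =>
      obtain ⟨t, ht, hf⟩ := hf
      have h1 : (fun v => f v) = fun v => t • v := funext hf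
      rw [h1]
      exact DFn_act (DFn_const t) DFn_id
    | zero => exact DFn_const (0 : V)
    | one => exact DFn_id
    | add f g _ _ h1 h2 => exact DFn_aadd h1 h2
    | neg f _ h1 => exact DFn_aneg h1
    | mul f g _ _ h1 h2 =>
      have h3 : DFn U (fun v => f (g v)) :=
        DFn_comp (f := fun v => g v) (g := fun v => f v) h1 h2
      exact h3
  -- the ring
  let S : Set (AddMonoid.End V) := {f | ∃ t ∈ T, ∀ v, f v = t • v}
  have hScom : ∀ a ∈ S, ∀ b ∈ S, a * b = b * a := by
    rintro a ⟨t, ht, ha⟩ b ⟨s, hs, hb⟩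
    refine AddMonoidHom.ext fun v => ?_
    change a (b v) = b (a v)
    rw [ha, hb, ha, hb, ← mul_smul, ← mul_smul, hTcom t ht s hs]
  let _ : CommRing (Subring.closure S) := Subring.closureCommRingOfComm hScom
  let E : Type := Subring.closure S
  have hEmem : ∀ r : Subring.closure S, (r : AddMonoid.End V) ∈ Eg (V := V) T := fun r => r.2
  let P : G → Ideal (Subring.closure S) := fun h =>
    { carrier := {r | ∀ w ∈ W, (r : AddMonoid.End V) (h • w) = 0}
      zero_mem' := fun w _ => rfl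
      add_mem' := by
        intro a b ha hb w hw
        change (a : AddMonoid.End V) (h • w) + (b : AddMonoid.End V) (h • w) = 0
        rw [ha w hw, hb w hw, add_zero]
      smul_mem' := by
        intro a b hb w hw
        change (a : AddMonoid.End V) ((b : AddMonoid.End V) (h • w)) = 0
        rw [hb w hw, map_zero] }
  have hP : ∀ (h : G) (r : Subring.closure S),
      r ∈ P h ↔ ∀ w ∈ W, (r : AddMonoid.End V) (h • w) = 0 := fun _ _ => Iff.rfl
  -- conjugates in the ring
  have hcj : ∀ (h : G) (r : Subring.closure S), ∃ r' : Subring.closure S,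
      ∀ v, (r' : AddMonoid.End V) v = h • (r : AddMonoid.End V) (h⁻¹ • v) := fun h r =>
    ⟨⟨cjr h r, cjr_mem hTn h r.2⟩, fun v => cjr_apply h r v⟩
  have hinj : ∀ (h : G) (r : Subring.closure S), r ∉ P h → ∀ w ∈ W,
      (r : AddMonoid.End V) (h • w) = 0 → w = 0 := by
    intro h r hr
    obtain ⟨r', hr'⟩ := hcj h⁻¹ r
    rcases hZ1 r' (hEmem r') with h1 | h1
    · exfalso
      apply hr
      intro w hw
      have h2 := h1 w hw
      rw [hr', inv_inv, smul_eq_zero_iff_eq] at h2
      exact h2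
    · intro w hw hw0
      apply h1.1 w hw
      rw [hr', inv_inv, hw0, smul_zero]
  have hmapsto : ∀ (h : G) (r : Subring.closure S), ∀ w ∈ W, ∃ w' ∈ W,
      (r : AddMonoid.End V) (h • w) = h • w' := by
    intro h r w hw
    obtain ⟨r', hr'⟩ := hcj h⁻¹ r
    refine ⟨(r' : AddMonoid.End V) w, hWI _ (hEmem r') w hw, ?_⟩
    rw [hr', inv_inv, smul_inv_smul]
  have h1P : ∀ h : G, (1 : Subring.closure S) ∉ P h := by
    intro h h1
    have h2 := h1 w₀ hw₀
    change h • w₀ = 0 at h2
    rw [smul_eq_zero_iff_eq] at h2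
    exact hw₀0 h2
  have hprime : ∀ h : G, (P h).IsPrime := by
    intro h
    refine ⟨fun h1 => h1P h ((Ideal.eq_top_iff_one _).1 h1), ?_⟩
    intro r s hrs
    by_contra hcon
    rw [not_or] at hcon
    apply hw₀0
    obtain ⟨w', hw', hww'⟩ := hmapsto h s w₀ hw₀
    have h1 : (r : AddMonoid.End V) ((s : AddMonoid.End V) (h • w₀)) = 0 := hrs w₀ hw₀
    rw [hww'] at h1
    have h2 := hinj h r hcon.1 w' hw' h1
    rw [h2, smul_zero] at hww'
    exact hinj h s hcon.2 w₀ hw₀ hww'
  -- inverses modulo `P h`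
  have hinv1 : ∀ r : Subring.closure S, r ∉ P 1 → ∃ s : Subring.closure S, s * r - 1 ∈ P 1 := by
    intro r hr
    have hr2 : (r : AddMonoid.End V) w₀ ≠ 0 := by
      intro h0
      apply hw₀0
      apply hinj 1 r hr w₀ hw₀
      rw [one_smul]
      exact h0
    have hr3 : (r : AddMonoid.End V) w₀ ∈ W := hWI _ (hEmem r) w₀ hw₀
    obtain ⟨k, hk⟩ := hZ2 _ hr3 hr2
    obtain ⟨t, t', htt, htw⟩ := hk w₀ hw₀
    obtain ⟨f, hf, hfv⟩ := sum_mem_Eg (V := V) t t' htt
    refine ⟨⟨f, hf⟩, ?_⟩
    by_contra hcon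
    apply hw₀0
    apply hinj 1 _ hcon w₀ hw₀
    rw [one_smul]
    change f ((r : AddMonoid.End V) w₀) - w₀ = 0
    rw [hfv, ← htw, sub_self]
  have hinv : ∀ (h : G) (r : Subring.closure S), r ∉ P h →
      ∃ s : Subring.closure S, s * r - 1 ∈ P h := by
    intro h r hr
    obtain ⟨r', hr'⟩ := hcj h⁻¹ r
    have h1 : r' ∉ P 1 := by
      intro h2
      apply hr
      intro w hw
      have h3 := h2 w hw
      rw [one_smul, hr', inv_inv, smul_eq_zero_iff_eq] at h3
      exact h3
    obtain ⟨s', hs'⟩ := hinv1 r' h1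
    obtain ⟨s, hs⟩ := hcj h s'
    refine ⟨s, fun w hw => ?_⟩
    have h2 := hs' w hw
    rw [one_smul] at h2
    change (s' : AddMonoid.End V) ((r' : AddMonoid.End V) w) - w = 0 at h2
    rw [hr', inv_inv] at h2
    change (s : AddMonoid.End V) ((r : AddMonoid.End V) (h • w)) - h • w = 0
    rw [hs, ← smul_sub, h2, smul_zero]
  -- every `P h` is one of the `P (g i)`
  have hfin : ∀ h : G, ∃ i : Fin m, P h = P (g i) := by
    intro h
    have h1 : (Finset.univ : Finset (Fin m)).inf (fun i => P (g i)) ≤ P h := by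
      intro r hr w hw
      have h2 : ∀ v : V, (r : AddMonoid.End V) v = 0 := by
        intro v
        obtain ⟨w', hw', hv⟩ := hg v
        rw [hv, map_sum]
        refine Finset.sum_eq_zero fun i _ => ?_
        have h3 : r ∈ P (g i) :=
          (Finset.inf_le (f := fun i => P (g i)) (Finset.mem_univ i)) hr
        exact h3 (w' i) (hw' i)
      exact h2 _
    obtain ⟨i, -, hi⟩ := ((hprime h).inf_le').1 h1
    refine ⟨i, le_antisymm ?_ hi⟩
    intro r hr
    by_contra hcon
    obtain ⟨s, hs⟩ := hinv (g i) r hcon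
    apply h1P h
    have h2 : s * r - 1 ∈ P h := hi hs
    have h3 : s * r ∈ P h := (P h).mul_mem_left s hr
    have h4 := (P h).sub_mem h3 h2
    rw [sub_sub_cancel] at h4
    exact h4
  -- the common kernels
  let VI : G → AddSubgroup V := fun h =>
    { carrier := {v | ∀ r ∈ P h, (r : AddMonoid.End V) v = 0}
      zero_mem' := fun r _ => map_zero _
      add_mem' := by
        intro v w hv hw r hr
        rw [map_add, hv r hr, hw r hr, add_zero]
      neg_mem' := by
        intro v hv r hr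
        rw [map_neg, hv r hr, neg_zero] }
  have hVI : ∀ h v, v ∈ VI h ↔ ∀ r ∈ P h, (r : AddMonoid.End V) v = 0 := fun _ _ => Iff.rfl
  have hVD : U.D (VI 1 : Set V) := by
    have h1 : VI 1 = sInf {A : AddSubgroup V | ∃ r ∈ P 1,
        A = AddMonoidHom.ker (r : AddMonoid.End V)} := by
      ext v
      rw [AddSubgroup.mem_sInf, hVI]
      constructor
      · rintro h A ⟨r, hr, rfl⟩
        exact h r hr
      · intro h r hr
        exact h _ ⟨r, hr, rfl⟩
    rw [h1]
    refine (hADT U V).inf _ ?_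
    rintro A ⟨r, hr, rfl⟩
    have h2 : U.D {v : V | (r : AddMonoid.End V) v = 0} :=
      D_eqf (hDFn r (hEmem r)) (DFn_const 0)
    exact h2
  have hmv : ∀ (h : G) (v : V), v ∈ VI 1 ↔ h • v ∈ VI h := by
    intro h v
    rw [hVI, hVI]
    constructor
    · intro hv r hr
      obtain ⟨r', hr'⟩ := hcj h⁻¹ r
      have h1 : r' ∈ P 1 := by
        intro w hw
        rw [one_smul, hr', inv_inv, hr w hw, smul_zero]
      have h2 := hv r' h1
      rw [hr', inv_inv, smul_eq_zero_iff_eq] at h2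
      exact h2
    · intro hv r hr
      obtain ⟨r', hr'⟩ := hcj h r
      have h1 : r' ∈ P h := by
        intro w hw
        have h3 := hr w hw
        rw [one_smul] at h3
        rw [hr', inv_smul_smul, h3, smul_zero]
      have h2 := hv r' h1
      rw [hr', inv_smul_smul, smul_eq_zero_iff_eq] at h2
      exact h2
  -- the stabiliser of `VI 1`
  let G1 : Subgroup G :=
    { carrier := {h | ∀ v, v ∈ VI 1 ↔ h • v ∈ VI 1}
      one_mem' := fun v => by rw [one_smul]
      mul_mem' := by
        intro a b ha hb v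
        rw [mul_smul, ← ha, ← hb]
      inv_mem' := by
        intro a ha v
        rw [ha (a⁻¹ • v), smul_inv_smul] }
  have hG1 : ∀ h, h ∈ G1 ↔ ∀ v, v ∈ VI 1 ↔ h • v ∈ VI 1 := fun _ => Iff.rfl
  have hG1D : U.D (G1 : Set G) := by
    have h1 : U.D {z : G × V | z.2 ∈ VI 1} := D_subst hVD DFn_snd
    have h2 : U.D {z : G × V | z.1 • z.2 ∈ VI 1} := D_subst hVD (DFn_act DFn_fst DFn_snd)
    have h3 : U.D {h : G | ∀ v : V, (v ∈ VI 1 → h • v ∈ VI 1) ∧ (h • v ∈ VI 1 → v ∈ VI 1)} :=
      D_forall (p := fun (h : G) (v : V) => (v ∈ VI 1 → h • v ∈ VI 1) ∧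
        (h • v ∈ VI 1 → v ∈ VI 1)) (D_and (D_imp h1 h2) (D_imp h2 h1))
    have h4 : (G1 : Set G) =
        {h : G | ∀ v : V, (v ∈ VI 1 → h • v ∈ VI 1) ∧ (h • v ∈ VI 1 → v ∈ VI 1)} := by
      ext h
      constructor
      · intro h1 v
        exact ⟨(h1 v).1, (h1 v).2⟩
      · intro h1 v
        exact ⟨(h1 v).1, (h1 v).2⟩
    rw [h4]
    exact h3
  have hG1f : Finite (G ⧸ G1) := by
    choose j hj using hfin
    have hsame : ∀ h k : G, j h = j k → h⁻¹ * k ∈ G1 := by
      intro h k hjk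
      have h1 : P h = P k := by rw [hj h, hj k, hjk]
      have h2 : VI h = VI k := by
        ext v
        rw [hVI, hVI, h1]
      rw [hG1]
      intro v
      rw [hmv k v, hmv h ((h⁻¹ * k) • v), ← mul_smul, mul_inv_cancel_left, h2]
    classical
    refine Finite.of_surjective (fun i : {i : Fin m // ∃ h, j h = i} =>
      (QuotientGroup.mk i.2.choose : G ⧸ G1)) ?_
    intro q
    obtain ⟨k, rfl⟩ := QuotientGroup.mk_surjective q
    refine ⟨⟨j k, k, rfl⟩, ?_⟩
    rw [QuotientGroup.eq]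
    exact hsame _ _ (Exists.choose_spec (⟨k, rfl⟩ : ∃ h, j h = j k))
  have hG1t : G1 = ⊤ := by
    refine hG.2 G1 le_top hG1D ?_
    refine (Pool.Agent.H77.BCP.a_GRA U ⊤ G1 hG.1 hG1D le_top).1 ?_
    rw [Subgroup.relIndex_top_right]
    exact Subgroup.index_ne_zero_of_finite
  have hWV : (W : Set V) ⊆ VI 1 := by
    intro w hw r hr
    have h1 := hr w hw
    rw [one_smul] at h1
    exact h1
  have hVt : VI 1 = ⊤ := by
    by_contra hne
    have h1 := hMn.2.2.2 (VI 1) le_top hVD (by
      intro t _ v hv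
      have h2 : t ∈ G1 := by
        rw [hG1t]
        exact Subgroup.mem_top t
      exact ((hG1 t).1 h2 v).1 hv) hne
    exact hW.2.2.1 (h1.subset hWV)
  intro r hr hr0 v
  have h1 : (⟨r, hr⟩ : Subring.closure S) ∈ P 1 := by
    intro w hw
    rw [one_smul]
    exact hr0 w hw
  have h2 : v ∈ VI 1 := by
    rw [hVt]
    exact AddSubgroup.mem_top v
  exact h2 _ h1

end Pool.Agent.H7.KGR
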