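import Pool.Agent.H77.KG.Targets

/-!
# Ranks of subgroups of products (PBD, board kgr_modules, page H77_KGR.md)
-/

set_option autoImplicit false

open Set Pool.Agent.H77.BC Pool.Agent.H77.BD Pool.Agent.H77.KG

namespace Pool.Agent.H7.KGR

section algebra

variable {G I : Type} [Group G] {L : I → Type} [∀ i, Group (L i)] (e : G ≃* ∀ i, L i)

private theorem mem_Nj {J : Set I} {g : G} : g ∈ Nj e J ↔ ∀ i, i ∉ J → e g i = 1 := Iff.rfl

private theorem ext_e {g h : G} (H : ∀ i, e g i = e h i) : g = h := e.injective (funext H)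

private theorem e_mul (g h : G) (i : I) : e (g * h) i = e g i * e h i := by
  rw [map_mul, Pi.mul_apply]

private theorem e_inv (g : G) (i : I) : e g⁻¹ i = (e g i)⁻¹ := by
  rw [map_inv, Pi.inv_apply]

private theorem e_cj (g h : G) (i : I) : e (g * h * g⁻¹) i = e g i * e h i * (e g i)⁻¹ := by
  rw [e_mul, e_mul, e_inv]

private theorem e_one (i : I) : e (1 : G) i = 1 := by
  rw [map_one, Pi.one_apply]

private theorem pj_in {J : Set I} {i : I} (hi : i ∈ J) (g : G) : e (pj e J g) i = e g i := by
  unfold pj
  rw [MulEquiv.apply_symm_apply, if_pos hi]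

private theorem pj_out {J : Set I} {i : I} (hi : i ∉ J) (g : G) : e (pj e J g) i = 1 := by
  unfold pj
  rw [MulEquiv.apply_symm_apply, if_neg hi]

/-- the projection as a homomorphism -/
private noncomputable def pjH (J : Set I) : G →* G := MonoidHom.mk' (pj e J) (by
  intro g h
  refine ext_e e fun i => ?_
  rw [e_mul]
  by_cases hi : i ∈ J
  · rw [pj_in e hi, pj_in e hi, pj_in e hi, e_mul]
  · rw [pj_out e hi, pj_out e hi, pj_out e hi, one_mul])

private theorem pjH_in {J : Set I} {i : I} (hi : i ∈ J) (g : G) : e (pjH e J g) i = e g i :=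
  pj_in e hi g

private theorem pjH_out {J : Set I} {i : I} (hi : i ∉ J) (g : G) : e (pjH e J g) i = 1 :=
  pj_out e hi g

private theorem mem_ker {J : Set I} {g : G} : g ∈ (pjH e J).ker ↔ ∀ i ∈ J, e g i = 1 := by
  rw [MonoidHom.mem_ker]
  constructor
  · intro h i hi
    rw [← pjH_in e hi, h, e_one]
  · intro h
    refine ext_e e fun i => ?_
    rw [e_one]
    by_cases hi : i ∈ J
    · rw [pjH_in e hi, h i hi]
    · rw [pjH_out e hi]

private theorem map_le (J : Set I) (P : Subgroup G) : P.map (pjH e J) ≤ Nj e J := by
  rintro g ⟨h, -, rfl⟩ i hi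
  exact pjH_out e hi h

/-- an element with one nontrivial component -/
private theorem ex_single (i : I) (x : L i) : ∃ g : G, g ∈ Nj e {i} ∧ e g i = x := by
  classical
  refine ⟨e.symm (Pi.mulSingle i x), fun j hj => ?_, ?_⟩
  · rw [MulEquiv.apply_symm_apply]
    exact Pi.mulSingle_eq_of_ne hj x
  · rw [MulEquiv.apply_symm_apply]
    exact Pi.mulSingle_eq_same i x

/-- the image of a normalised subgroup in a simple factor -/
private theorem img {i : I} (hs : IsSimpleGroup (L i)) (P X : Subgroup G)
    (hX : ∀ h ∈ P, ∀ g ∈ X, h * g * h⁻¹ ∈ X) (hon : ∀ x : L i, ∃ g ∈ P, e g i = x) :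
    (∀ g ∈ X, e g i = 1) ∨ ∀ x : L i, ∃ g ∈ X, e g i = x := by
  let ev : G →* L i := (Pi.evalMonoidHom L i).comp e.toMonoidHom
  have hev : ∀ g, ev g = e g i := fun _ => rfl
  have hn : (X.map ev).Normal := by
    refine ⟨?_⟩
    rintro x ⟨g, hg, rfl⟩ a
    obtain ⟨h, hh, rfl⟩ := hon a
    exact ⟨h * g * h⁻¹, hX h hh g hg, by rw [hev, e_cj, hev]⟩
  rcases hs.eq_bot_or_eq_top_of_normal _ hn with h | h
  · left
    intro g hg
    have h1 : ev g ∈ X.map ev := ⟨g, hg, rfl⟩
    rw [h, Subgroup.mem_bot] at h1
    exact h1
  · right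
    intro x
    have h1 : x ∈ X.map ev := by
      rw [h]
      exact Subgroup.mem_top x
    obtain ⟨g, hg, hgx⟩ := h1
    exact ⟨g, hg, hgx⟩

/-- case B: `P` meets the factor trivially -/
private theorem meet {i : I} (hs : IsSimpleGroup (L i)) (P : Subgroup G)
    (hon : ∀ x : L i, ∃ g ∈ P, e g i = x) (hN : ¬ Nj e {i} ≤ P) :
    ∀ g ∈ P, g ∈ Nj e {i} → g = 1 := by
  rcases img e hs P (P ⊓ Nj e {i}) (by
    rintro h hh g ⟨hg1, hg2⟩
    refine ⟨P.mul_mem (P.mul_mem hh hg1) (P.inv_mem hh), fun j hj => ?_⟩
    rw [e_cj, hg2 j hj, mul_one, mul_inv_cancel]) hon with h | h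
  · intro g hg1 hg2
    refine ext_e e fun j => ?_
    rw [e_one]
    by_cases hj : j = i
    · subst hj
      exact h g ⟨hg1, hg2⟩
    · exact hg2 j hj
  · exfalso
    apply hN
    intro g hg
    obtain ⟨g', ⟨h1, h2⟩, h3⟩ := h (e g i)
    have h4 : g = g' := by
      refine ext_e e fun j => ?_
      by_cases hj : j = i
      · subst hj
        exact h3.symm
      · rw [hg j hj, h2 j hj]
    rw [h4]
    exact h1

end algebra

/-- PBD: ranks of subgroups of products -/
theorem pf_PBD (hPRD : T_PRD) (hRPR : T_RPR) (hHMI : T_HMI) : T_PBD := by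
  intro M U G I _ _ L _ _ _ e hs hnc c hc2 hc
  classical
  have hcen : ∀ (i : I) (z : L i), (∀ a, a * z = z * a) → z = 1 := by
    intro i z hz
    rcases (hs i).eq_bot_or_eq_top_of_normal (Subgroup.center (L i)) inferInstance with h | h
    · have h1 : z ∈ Subgroup.center (L i) := Subgroup.mem_center_iff.2 hz
      rw [h, Subgroup.mem_bot] at h1
      exact h1
    · exfalso
      obtain ⟨a, b, hab⟩ := hnc i
      have h1 : b ∈ Subgroup.center (L i) := by
        rw [h]
        exact Subgroup.mem_top b
      exact hab (Subgroup.mem_center_iff.1 h1 a)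
  have hND : ∀ J : Set I, U.D (Nj e J : Set G) := fun J => (hPRD U e hcen J).1
  have hpD : ∀ J : Set I, DFn U (fun g => pjH e J g) := fun J => (hPRD U e hcen J).2
  have hNR : ∀ J : Finset I, U.R (Nj e (J : Set I) : Set G) = ∑ i ∈ J, U.R (Nj e {i} : Set G) :=
    (hRPR U e hcen).1
  have hRKA := Pool.Agent.H77.BCP.a_RKA U
  have hmono : ∀ A B : Subgroup G, U.D (A : Set G) → U.D (B : Set G) → A ≤ B →
      U.R (A : Set G) ≤ U.R (B : Set G) := fun A B hA hB h =>
    hRKA.mono hA hB ⟨1, A.one_mem⟩ h
  -- rank of the image and the kernel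
  have hmap : ∀ (J : Set I) (P : Subgroup G), U.D (P : Set G) →
      U.D ((P.map (pjH e J) : Subgroup G) : Set G) ∧
      U.D ((P ⊓ (pjH e J).ker : Subgroup G) : Set G) ∧
      U.R (P : Set G) = U.R ((P.map (pjH e J) : Subgroup G) : Set G) +
        U.R ((P ⊓ (pjH e J).ker : Subgroup G) : Set G) := by
    intro J P hP
    have h1 := hHMI U (pjH e J) (hpD J)
    have h2 := h1.1 P hP
    have h3 : U.D ((⊥ : Subgroup G) : Set G) := by
      rw [Subgroup.coe_bot]
      exact D_singleton 1
    have h4 := (h1.2 ⊥ h3).1
    rw [MonoidHom.comap_bot] at h4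
    exact ⟨h2.1, D_inter hP h4, h2.2.1⟩
  have hzero : ∀ A : Subgroup G, (∀ g ∈ A, g = 1) → U.R (A : Set G) = 0 := by
    intro A hA
    have h1 : (A : Set G) = {1} := by
      ext g
      constructor
      · exact fun h => hA g h
      · intro h
        rw [mem_singleton_iff.1 h]
        exact A.one_mem
    rw [h1]
    exact (hRKA.fin (D_singleton 1) ⟨1, rfl⟩).2 (Set.finite_singleton 1)
  have main : ∀ (m : ℕ) (J : Finset I), J.card = m → ∀ P : Subgroup G, U.D (P : Set G) →
      P ≤ Nj e (J : Set I) → (∀ i ∈ J, ¬ Nj e {i} ≤ P) →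
      U.R (P : Set G) + ∑ i ∈ J, c i ≤ ∑ i ∈ J, U.R (Nj e {i} : Set G) := by
    intro m
    induction m using Nat.strong_induction_on with
    | _ m ih =>
    intro J hJm P hP hPJ hPN
    by_cases hJ : J = ∅
    · subst hJ
      have h0 : U.R (P : Set G) = 0 := by
        refine hzero P fun g hg => ext_e e fun i => ?_
        rw [e_one]
        exact hPJ hg i (by simp)
      rw [Finset.sum_empty, Finset.sum_empty, h0, add_zero]
    by_cases hon : ∀ i ∈ J, ∀ x : L i, ∃ g ∈ P, e g i = x
    · -- case B
      obtain ⟨i, hi⟩ := Finset.nonempty_iff_ne_empty.2 hJ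
      have hmeet : ∀ k ∈ J, ∀ g ∈ P, g ∈ Nj e {k} → g = 1 := fun k hk =>
        meet e (hs k) P (hon k hk) (hPN k hk)
      obtain ⟨J', hJ'⟩ : ∃ J' : Finset I, J' = J.erase i := ⟨_, rfl⟩
      have hJ'c : J'.card < m := by
        rw [hJ', ← hJm]
        exact Finset.card_erase_lt_of_mem hi
      obtain ⟨Q, hQ⟩ : ∃ Q : Subgroup G, Q = P.map (pjH e (J' : Set I)) := ⟨_, rfl⟩
      obtain ⟨hQD, hkD, hQR⟩ := hmap (J' : Set I) P hP
      rw [← hQ] at hQD hQR
      have hker : U.R ((P ⊓ (pjH e (J' : Set I)).ker : Subgroup G) : Set G) = 0 := by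
        refine hzero _ ?_
        rintro g ⟨h1, h2⟩
        refine hmeet i hi g h1 fun k hk => ?_
        have hk' : k ≠ i := hk
        by_cases hkJ : k ∈ J
        · refine (mem_ker e).1 h2 k ?_
          rw [hJ']
          exact Finset.mem_coe.2 (Finset.mem_erase.2 ⟨hk', hkJ⟩)
        · exact hPJ h1 k hkJ
      rw [hker, add_zero] at hQR
      have hQJ' : Q ≤ Nj e (J' : Set I) := by
        rw [hQ]
        exact map_le e _ P
      have hsumN := Finset.add_sum_erase J (fun i => U.R (Nj e {i} : Set G)) hi
      have hsumc := Finset.add_sum_erase J c hi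
      rw [← hJ'] at hsumN hsumc
      rw [hQR, ← hsumN, ← hsumc]
      have hci := hc2 i
      by_cases hK : ∀ j ∈ J', ¬ Nj e {j} ≤ Q
      · have h1 := ih J'.card hJ'c J' rfl Q hQD hQJ' hK
        omega
      · push Not at hK
        obtain ⟨j, hj, hjQ⟩ := hK
        have hjJ : j ∈ J := by
          rw [hJ'] at hj
          exact Finset.mem_of_mem_erase hj
        have hji : j ≠ i := by
          rw [hJ'] at hj
          exact Finset.ne_of_mem_erase hj
        -- the elements of `P` with components in `{i, k}`
        let T : I → Subgroup G := fun k => P ⊓ Nj e {i, k}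
        have hTn : ∀ k, ∀ h ∈ P, ∀ g ∈ T k, h * g * h⁻¹ ∈ T k := by
          rintro k h hh g ⟨hg1, hg2⟩
          refine ⟨P.mul_mem (P.mul_mem hh hg1) (P.inv_mem hh), fun l hl => ?_⟩
          rw [e_cj, hg2 l hl, mul_one, mul_inv_cancel]
        have hTj : ∀ k ∈ J', Nj e {k} ≤ Q → ∀ x : L k, ∃ g ∈ T k, e g k = x := by
          intro k hk hkQ x
          obtain ⟨g, hg, hgx⟩ := ex_single e k x
          have h1 := hkQ hg
          rw [hQ] at h1
          obtain ⟨h, hh, hhg⟩ := h1
          refine ⟨h, ⟨hh, fun l hl => ?_⟩, ?_⟩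
          · have hl1 : l ≠ i := fun h0 => hl (Or.inl h0)
            have hl2 : l ≠ k := fun h0 => hl (Or.inr h0)
            by_cases hlJ : l ∈ J
            · have hlJ' : l ∈ (J' : Set I) := by
                rw [hJ']
                exact Finset.mem_coe.2 (Finset.mem_erase.2 ⟨hl1, hlJ⟩)
              rw [← pjH_in e hlJ' h, hhg]
              exact hg l hl2
            · exact hPJ hh l hlJ
          · rw [← pjH_in e (Finset.mem_coe.2 hk) h, hhg, hgx]
        have hTi : ∀ k ∈ J', k ∈ J → Nj e {k} ≤ Q → ∀ x : L i, ∃ g ∈ T k, e g i = x := by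
          intro k hk hkJ hkQ
          rcases img e (hs i) P (T k) (hTn k) (hon i hi) with h | h
          · exfalso
            obtain ⟨a, b, hab⟩ := hnc k
            have h1 : ∀ x : L k, x = 1 := by
              intro x
              obtain ⟨g, hg, hgx⟩ := hTj k hk hkQ x
              have h2 : g = 1 := by
                refine hmeet k hkJ g hg.1 fun l hl => ?_
                by_cases hli : l = i
                · subst hli
                  exact h g hg
                · refine hg.2 l ?_
                  rintro (h0 | h0)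
                  · exact hli h0
                  · exact hl h0
              rw [← hgx, h2, e_one]
            exact hab (by rw [h1 a, h1 b])
          · exact h
        have hTD : ∀ k, U.D (T k : Set G) := fun k => D_inter hP (hND _)
        -- the ranks of the factors `i` and `j` are equal
        have hRj : U.R (T j : Set G) = U.R (Nj e {j} : Set G) := by
          obtain ⟨-, -, h1⟩ := hmap {j} (T j) (hTD j)
          have h2 : (T j).map (pjH e {j}) = Nj e {j} := by
            refine le_antisymm (map_le e _ _) ?_
            intro g hg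
            obtain ⟨h, hh, hhx⟩ := hTj j hj hjQ (e g j)
            refine ⟨h, hh, ?_⟩
            refine ext_e e fun l => ?_
            by_cases hl : l = j
            · subst hl
              rw [pjH_in e (mem_singleton l), hhx]
            · rw [pjH_out e (show l ∉ ({j} : Set I) from hl), hg l hl]
          have h3 : U.R ((T j ⊓ (pjH e {j}).ker : Subgroup G) : Set G) = 0 := by
            refine hzero _ ?_
            rintro g ⟨h3, h4⟩
            refine hmeet i hi g h3.1 fun l hl => ?_
            by_cases hlj : l = j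
            · subst hlj
              exact (mem_ker e).1 h4 l (mem_singleton l)
            · refine h3.2 l ?_
              rintro (h0 | h0)
              · exact hl h0
              · exact hlj h0
          rw [h2, h3, add_zero] at h1
          exact h1
        have hRi : U.R (T j : Set G) = U.R (Nj e {i} : Set G) := by
          obtain ⟨-, -, h1⟩ := hmap {i} (T j) (hTD j)
          have h2 : (T j).map (pjH e {i}) = Nj e {i} := by
            refine le_antisymm (map_le e _ _) ?_
            intro g hg
            obtain ⟨h, hh, hhx⟩ := hTi j hj hjJ hjQ (e g i)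
            refine ⟨h, hh, ?_⟩
            refine ext_e e fun l => ?_
            by_cases hl : l = i
            · subst hl
              rw [pjH_in e (mem_singleton l), hhx]
            · rw [pjH_out e (show l ∉ ({i} : Set I) from hl), hg l hl]
          have h3 : U.R ((T j ⊓ (pjH e {i}).ker : Subgroup G) : Set G) = 0 := by
            refine hzero _ ?_
            rintro g ⟨h3, h4⟩
            refine hmeet j hjJ g h3.1 fun l hl => ?_
            by_cases hli : l = i
            · subst hli
              exact (mem_ker e).1 h4 l (mem_singleton l)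
            · refine h3.2 l ?_
              rintro (h0 | h0)
              · exact hli h0
              · exact hl h0
          rw [h2, h3, add_zero] at h1
          exact h1
        -- only one index
        have huni : ∀ k ∈ J', Nj e {k} ≤ Q → k = j := by
          intro k hk hkQ
          by_contra hkj
          have hkJ : k ∈ J := by
            rw [hJ'] at hk
            exact Finset.mem_of_mem_erase hk
          obtain ⟨a, b, hab⟩ := hnc i
          obtain ⟨g, hg, hga⟩ := hTi j hj hjJ hjQ a
          obtain ⟨h, hh, hhb⟩ := hTi k hk hkJ hkQ b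
          have h1 : g * h * g⁻¹ * h⁻¹ = 1 := by
            refine hmeet i hi _ (P.mul_mem (P.mul_mem (P.mul_mem hg.1 hh.1) (P.inv_mem hg.1))
              (P.inv_mem hh.1)) fun l hl => ?_
            rw [e_mul, e_cj, e_inv]
            by_cases hlj : l = j
            · have h2 : e h l = 1 := by
                refine hh.2 l ?_
                rintro (h0 | h0)
                · exact hl h0
                · exact hkj (h0.symm.trans hlj)
              rw [h2, mul_one, mul_inv_cancel, inv_one, mul_one]
            · have h2 : e g l = 1 := by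
                refine hg.2 l ?_
                rintro (h0 | h0)
                · exact hl h0
                · exact hlj h0
              rw [h2, one_mul, inv_one, mul_one, mul_inv_cancel]
          apply hab
          have h2 : e (g * h * g⁻¹ * h⁻¹) i = 1 := by
            rw [h1, e_one]
          rw [e_mul, e_cj, e_inv, hga, hhb] at h2
          have h3 : a * b * a⁻¹ = b := by
            rw [mul_inv_eq_one] at h2
            exact h2
          rw [mul_inv_eq_iff_eq_mul] at h3
          exact h3
        -- the rest
        obtain ⟨J'', hJ''⟩ : ∃ J'' : Finset I, J'' = J'.erase j := ⟨_, rfl⟩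
        have hJ''c : J''.card < m := by
          rw [hJ'']
          exact (Finset.card_erase_lt_of_mem hj).trans hJ'c
        obtain ⟨Q', hQ'⟩ : ∃ Q' : Subgroup G, Q' = Q ⊓ (pjH e {j}).ker := ⟨_, rfl⟩
        obtain ⟨hmD, hQ'D, hQ'R⟩ := hmap {j} Q hQD
        rw [← hQ'] at hQ'D hQ'R
        have hQ'J : Q' ≤ Nj e (J'' : Set I) := by
          rw [hQ']
          rintro g ⟨h1, h2⟩ l hl
          by_cases hlj : l = j
          · subst hlj
            exact (mem_ker e).1 h2 l (mem_singleton l)
          · refine hQJ' h1 l fun h0 => hl ?_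
            rw [hJ'']
            exact Finset.mem_coe.2 (Finset.mem_erase.2 ⟨hlj, Finset.mem_coe.1 h0⟩)
        have hQ'N : ∀ k ∈ J'', ¬ Nj e {k} ≤ Q' := by
          intro k hk hkQ
          rw [hJ''] at hk
          have h1 := huni k (Finset.mem_of_mem_erase hk) (hkQ.trans (by
            rw [hQ']
            exact inf_le_left))
          exact Finset.ne_of_mem_erase hk h1
        have h1 := ih J''.card hJ''c J'' rfl Q' hQ'D hQ'J hQ'N
        have h2 := hmono _ _ hmD (hND {j}) (map_le e {j} Q)
        have hsumN' := Finset.add_sum_erase J' (fun i => U.R (Nj e {i} : Set G)) hj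
        have hsumc' := Finset.add_sum_erase J' c hj
        rw [← hJ''] at hsumN' hsumc'
        have hcj := hc2 j
        have hij : U.R (Nj e {i} : Set G) = U.R (Nj e {j} : Set G) := by
          rw [← hRi, hRj]
        rw [← hsumN', ← hsumc']
        omega
    · -- case A
      push Not at hon
      obtain ⟨i, hi, x, hx⟩ := hon
      obtain ⟨hmD, hkD, hR⟩ := hmap {i} P hP
      have hne : P.map (pjH e {i}) ≠ Nj e {i} := by
        intro h0
        obtain ⟨g, hg, hgx⟩ := ex_single e i x
        rw [← h0] at hg
        obtain ⟨h, hh, hhg⟩ := hg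
        apply hx h hh
        rw [← hgx, ← hhg, pjH_in e (mem_singleton i)]
      have h1 := hc i _ (map_le e {i} P) hne hmD
      have h2 := ih (J.erase i).card (by
        rw [← hJm]
        exact Finset.card_erase_lt_of_mem hi) (J.erase i) rfl (P ⊓ (pjH e {i}).ker) hkD (by
        rintro g ⟨h3, h4⟩ l hl
        by_cases hli : l = i
        · subst hli
          exact (mem_ker e).1 h4 l (mem_singleton l)
        · refine hPJ h3 l fun h0 => hl ?_
          exact Finset.mem_coe.2 (Finset.mem_erase.2 ⟨hli, Finset.mem_coe.1 h0⟩)) (by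
        intro k hk hkP
        exact hPN k (Finset.mem_of_mem_erase hk) (hkP.trans inf_le_left))
      have hsumN := Finset.add_sum_erase J (fun i => U.R (Nj e {i} : Set G)) hi
      have hsumc := Finset.add_sum_erase J c hi
      rw [← hsumN, ← hsumc, hR]
      omega
  intro J P hP hPJ hPN
  rw [hNR]
  exact main J.card J rfl P hP hPJ hPN

end Pool.Agent.H7.KGR
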